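import Pool.Agent.H549Z.R1.Main

/-! The rank-one operator and the comparison of its norm with its numerical radius. -/
set_option autoImplicit false

open MeasureTheory Filter Topology RCLike
open scoped ENNReal

namespace Pool.Agent.H549Z.R1

variable {𝕜 : Type*} [RCLike 𝕜] {Ω : Type*} [MeasurableSpace Ω] {μ : Measure Ω}

theorem small (r K κ η₀ C : ℝ) (hr : r < 2) (hκ : 0 < κ) (hη₀ : 0 < η₀) :
    ∃ η : ℝ, 0 < η ∧ η ≤ η₀ ∧ η ≤ 1 ∧ C * η ^ 2 ≤ 1 ∧ K * η ^ 2 < κ * η ^ r := by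
  have c1 : Continuous (fun η : ℝ => K * η ^ (2 - r)) :=
    continuous_const.mul (Real.continuous_rpow_const (by linarith))
  have c2 : Continuous (fun η : ℝ => C * η ^ 2) := by fun_prop
  have h1 : ∀ᶠ η in 𝓝 (0 : ℝ), K * η ^ (2 - r) < κ :=
    c1.continuousAt.eventually_lt continuousAt_const
      (by simpa [Real.zero_rpow (show 2 - r ≠ 0 by linarith)] using hκ)
  have h2 : ∀ᶠ η in 𝓝 (0 : ℝ), C * η ^ 2 < 1 :=
    c2.continuousAt.eventually_lt continuousAt_const (by simp)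
  have h3 : ∀ᶠ η in 𝓝 (0 : ℝ), η < η₀ := eventually_lt_nhds hη₀
  have h4 : ∀ᶠ η in 𝓝 (0 : ℝ), η < 1 := eventually_lt_nhds one_pos
  have h5 : ∀ᶠ η in 𝓝[>] (0 : ℝ), 0 < η ∧ K * η ^ (2 - r) < κ ∧ C * η ^ 2 < 1 ∧ η < η₀ ∧ η < 1 :=
    (eventually_mem_nhdsWithin).and
      (((h1.and (h2.and (h3.and h4)))).filter_mono nhdsWithin_le_nhds)
  obtain ⟨η, a0, a1, a2, a3, a4⟩ := h5.exists
  refine ⟨η, a0, a3.le, a4.le, a2.le, ?_⟩
  have e : η ^ 2 = η ^ (2 - r) * η ^ r := by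
    rw [← Real.rpow_add a0, sub_add_cancel, Real.rpow_two]
  rw [e, ← mul_assoc]
  exact mul_lt_mul_of_pos_right a1 (Real.rpow_pos_of_pos a0 r)

theorem choose_eta (P Q : ℝ) (hPQ : P.HolderConjugate Q) (hP2 : P ≠ 2) (C η₀ κ : ℝ) (hC : 0 < C)
    (hη₀ : 0 < η₀) (hκ : 0 < κ) : ∃ η t : ℝ, 0 < η ∧ η ≤ η₀ ∧ 0 ≤ t ∧
      ((1 + C * η ^ 2) ^ 2) ^ P * (1 + P / Q * t ^ P) < (1 + η * t) ^ P * (1 + κ * η ^ P) := by
  have hP := hPQ.lt
  have hQ := hPQ.symm.lt
  rcases lt_or_gt_of_ne hP2 with h | h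
  · obtain ⟨η, h0, h1, -, h3, h4⟩ := small P (15 * C) κ η₀ C h hκ hη₀
    refine ⟨η, 0, h0, h1, le_rfl, ?_⟩
    rw [Real.zero_rpow (by linarith), mul_zero, mul_zero, add_zero, mul_one, Real.one_rpow, one_mul]
    set s := C * η ^ 2 with hs
    have hs0 : 0 ≤ s := by positivity
    have a1 : ((1 + s) ^ 2) ^ P ≤ ((1 + s) ^ 2) ^ (2 : ℝ) :=
      Real.rpow_le_rpow_of_exponent_le (by nlinarith) h.le
    rw [Real.rpow_two] at a1
    have a2 : ((1 + s) ^ 2) ^ 2 ≤ 1 + 15 * s := by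
      have b1 : s ^ 2 ≤ s := by nlinarith
      have b2 : s ^ 3 ≤ s := by nlinarith
      have b3 : s ^ 4 ≤ s := by nlinarith
      nlinarith
    have a3 : 15 * s < κ * η ^ P := by rw [hs]; linarith
    linarith
  · have hQ2 : Q < 2 := by
      have := hPQ.mul_eq_add
      by_contra hc
      push Not at hc
      nlinarith
    have hP0 : 0 < P := by linarith
    have hQ0 : 0 < Q := by linarith
    obtain ⟨η, h0, h1, h2, h3, h4⟩ := small Q (6 * C) (1 / P) η₀ C hQ2 (by positivity) hη₀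
    refine ⟨η, η ^ (Q - 1), h0, h1, by positivity, ?_⟩
    have e1 : (η ^ (Q - 1)) ^ P = η ^ Q := by
      rw [← Real.rpow_mul h0.le, hPQ.symm.sub_one_mul_conj]
    have e2 : η * η ^ (Q - 1) = η ^ Q := by
      rw [mul_comm, ← Real.rpow_add_one h0.ne']; ring_nf
    rw [e1, e2]
    set x := η ^ Q with hx
    have hx0 : 0 < x := Real.rpow_pos_of_pos h0 Q
    have hx1 : x ≤ 1 := Real.rpow_le_one h0.le h2 hQ0.le
    set s := C * η ^ 2 with hs
    have hs0 : 0 ≤ s := by positivity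
    have a1 : 1 + P / Q * x ≤ (1 + x / Q) ^ P := by
      have := one_add_mul_self_le_rpow_one_add (s := x / Q)
        (by have : 0 ≤ x / Q := by positivity
            linarith) hP.le
      refine le_trans (le_of_eq ?_) this
      ring
    have hsum : 1 / P + 1 / Q = 1 := by
      rw [one_div, one_div]; exact hPQ.inv_add_inv_eq_one
    have a2 : (1 + s) ^ 2 * (1 + x / Q) < 1 + x := by
      have b1 : (1 + s) ^ 2 ≤ 1 + 3 * s := by nlinarith
      have b2 : x / Q ≤ 1 := by rw [div_le_one hQ0]; linarith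
      have b3 : 0 ≤ x / Q := by positivity
      have b4 : 6 * s < 1 / P * x := by rw [hs]; linarith
      have b5 : 1 / P * x + x / Q = x := by
        calc 1 / P * x + x / Q = (1 / P + 1 / Q) * x := by ring
          _ = x := by rw [hsum, one_mul]
      nlinarith [mul_le_mul_of_nonneg_right b1 (show 0 ≤ 1 + x / Q by linarith)]
    have a3 : ((1 + s) ^ 2 * (1 + x / Q)) ^ P < (1 + x) ^ P :=
      Real.rpow_lt_rpow (by positivity) a2 hP0
    rw [Real.mul_rpow (by positivity) (by positivity)] at a3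
    have a4 : ((1 + s) ^ 2) ^ P * (1 + P / Q * x) ≤ ((1 + s) ^ 2) ^ P * (1 + x / Q) ^ P :=
      mul_le_mul_of_nonneg_left a1 (by positivity)
    have a5 : (1 + x) ^ P ≤ (1 + x) ^ P * (1 + κ * η ^ P) :=
      le_mul_of_one_le_right (by positivity) (by
        have : 0 ≤ κ * η ^ P := by positivity
        linarith)
    linarith

theorem exists_op {p : ℝ≥0∞} [Fact (1 ≤ p)] (hp : p ≠ ∞) (Q : ℝ)
    (hPQ : p.toReal.HolderConjugate Q) (hP2 : p.toReal ≠ 2)
    (hdim : 1 < Module.rank 𝕜 (Lp 𝕜 p μ)) :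
    ∃ (φ : Lp 𝕜 p μ →L[𝕜] 𝕜) (y : Lp 𝕜 p μ) (c : ℝ), 0 < c ∧
      (∀ (z : Lp 𝕜 p μ) (f : Lp 𝕜 p μ →L[𝕜] 𝕜), ‖z‖ = 1 → ‖f‖ = 1 → f z = 1 →
        ‖φ z‖ * ‖f y‖ ≤ c) ∧
      c * (p.toReal ^ (1 / p.toReal) * Q ^ (1 / Q)) < ‖φ‖ * ‖y‖ := by
  obtain ⟨A, B, hA, hB, hAB, hA0, hA1, hB0, hB1⟩ := two_sets hp hdim
  set P := p.toReal with hPdef
  have hP := hPQ.lt
  have hQ := hPQ.symm.lt
  have hP0 : 0 < P := by linarith
  have hQ0 : 0 < Q := by linarith
  have hsum : 1 / P + 1 / Q = 1 := by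
    rw [one_div, one_div]; exact hPQ.inv_add_inv_eq_one
  set mA := μ.real A with hmA
  set mB := μ.real B with hmB
  have hmA0 : 0 < mA := ENNReal.toReal_pos hA0 hA1
  have hmB0 : 0 < mB := ENNReal.toReal_pos hB0 hB1
  set lA : ℝ := (1 / (Q * mA)) ^ P⁻¹ with hlA
  set lB : ℝ := (1 / (P * mB)) ^ P⁻¹ with hlB
  have hlA0 : 0 < lA := Real.rpow_pos_of_pos (by positivity) _
  have hlB0 : 0 < lB := Real.rpow_pos_of_pos (by positivity) _
  have hlAP : lA ^ P = 1 / (Q * mA) := Real.rpow_inv_rpow (by positivity) hP0.ne'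
  have hlBP : lB ^ P = 1 / (P * mB) := Real.rpow_inv_rpow (by positivity) hP0.ne'
  have hlA1 : lA ^ (P - 1) = 1 / (Q * mA * lA) := by
    rw [Real.rpow_sub_one hlA0.ne', hlAP]; field_simp
  have hlB1 : lB ^ (P - 1) = 1 / (P * mB * lB) := by
    rw [Real.rpow_sub_one hlB0.ne', hlBP]; field_simp
  obtain ⟨C, η₀, hC, hη₀, hpt⟩ := point_both (𝕜 := 𝕜) P Q hPQ
  have hPP : 0 < P ^ P := Real.rpow_pos_of_pos hP0 _
  have hQP : 0 < Q ^ P := Real.rpow_pos_of_pos hQ0 _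
  obtain ⟨η, t, hη, hη1, ht, hmain⟩ := choose_eta P Q hPQ hP2 C η₀ ((P ^ P / P) / (Q ^ P / Q)) hC
    hη₀ (by positivity)
  obtain ⟨φ, hφ⟩ := exists_functional (𝕜 := 𝕜) (μ := μ) p hA hB hA1 hB1 (η / (mA * lA))
    (1 / (mB * lB))
  obtain ⟨y, hy⟩ := exists_two (𝕜 := 𝕜) (μ := μ) p hA hB hA1 hB1 (Q * lA) (-(η * P * lB))
  obtain ⟨z₀, hz₀⟩ := exists_two (𝕜 := 𝕜) (μ := μ) p hA hB hA1 hB1 (t * lA) lB
  refine ⟨φ, y, (1 + C * η ^ 2) ^ 2, by positivity, ?_, ?_⟩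
  · intro z f hz hf hfz
    obtain ⟨u, hu, hu2⟩ := exists_unit (φ z)
    obtain ⟨w, hw, hw2⟩ := exists_unit (f y)
    obtain ⟨hi, hle⟩ := norming hp hP z (w • y) f hz hf hfz
    rw [map_smul, smul_eq_mul, hw2] at hle
    obtain ⟨hφi, hφe⟩ := hφ z
    have hi2 : Integrable (fun ω => re (u * (((two A B (η / (mA * lA)) (1 / (mB * lB)) ω : ℝ) : 𝕜)
        * z ω))) μ := (hφi.const_mul u).re
    have he2 : ∫ ω, re (u * (((two A B (η / (mA * lA)) (1 / (mB * lB)) ω : ℝ) : 𝕜) * z ω)) ∂μ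
        = ‖φ z‖ := by
      rw [integral_re (hφi.const_mul u), integral_const_mul, ← hφe, hu2]
    have hp0 : p ≠ 0 := (lt_of_lt_of_le zero_lt_one Fact.out).ne'
    have hi3 : Integrable (fun ω => ‖z ω‖ ^ P) μ := (Lp.memLp z).integrable_norm_rpow hp0 hp
    have he3 : ∫ ω, ‖z ω‖ ^ P ∂μ = 1 := by
      rw [← norm_rpow_eq hp z, hz, Real.one_rpow]
    have hpw : ∀ᵐ ω ∂μ, re (u * (((two A B (η / (mA * lA)) (1 / (mB * lB)) ω : ℝ) : 𝕜) * z ω))
        + Dir P (z ω) ((w • y : Lp 𝕜 p μ) ω) - ‖z ω‖ ^ P ≤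
        two A B ((1 / P + η * re (u * w) + C * η ^ 2) / mA)
          ((1 / Q - η * re (u * w) + C * η ^ 2) / mB) ω := by
      filter_upwards [hy, Lp.coeFn_smul w y] with ω h1 h2
      rw [h2, Pi.smul_apply, h1, smul_eq_mul, Dir_real, mul_left_comm, re_ofReal_mul]
      by_cases ha : ω ∈ A
      · rw [two_A hAB _ _ ha, two_A hAB _ _ ha, two_A hAB _ _ ha]
        have h := (hpt η lA (z ω) u w (by rw [abs_of_pos hη]; exact hη1) hlA0 hu hw).2
        rw [hlA1, hlAP] at h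
        rw [le_div_iff₀ hmA0]
        refine le_trans (le_of_eq ?_) h
        field_simp
      · by_cases hb : ω ∈ B
        · rw [two_B hAB _ _ hb, two_B hAB _ _ hb, two_B hAB _ _ hb]
          have h := (hpt η lB (z ω) u w (by rw [abs_of_pos hη]; exact hη1) hlB0 hu hw).1
          rw [hlB1, hlBP] at h
          rw [le_div_iff₀ hmB0]
          refine le_trans (le_of_eq ?_) h
          field_simp
          ring
        · rw [two_C _ _ ha hb, two_C _ _ ha hb, two_C _ _ ha hb]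
          have : 0 ≤ ‖z ω‖ ^ P := by positivity
          linarith
    have hint := integral_mono_ae ((hi2.add hi).sub hi3) (two_integrable hA hB hA1 hB1 _ _) hpw
    rw [two_integral hA hB hA1 hB1] at hint
    have hsplit : ∫ ω, (re (u * (((two A B (η / (mA * lA)) (1 / (mB * lB)) ω : ℝ) : 𝕜) * z ω))
        + Dir P (z ω) ((w • y : Lp 𝕜 p μ) ω) - ‖z ω‖ ^ P) ∂μ =
        ‖φ z‖ + ∫ ω, Dir P (z ω) ((w • y : Lp 𝕜 p μ) ω) ∂μ - 1 := by
      have hi4 : Integrable (fun ω => re (u * (((two A B (η / (mA * lA)) (1 / (mB * lB)) ω : ℝ) : 𝕜)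
          * z ω)) + Dir P (z ω) ((w • y : Lp 𝕜 p μ) ω)) μ := hi2.add hi
      rw [integral_sub hi4 hi3, integral_add hi2 hi, he2, he3]
    have hint2 : ‖φ z‖ + ∫ ω, Dir P (z ω) ((w • y : Lp 𝕜 p μ) ω) ∂μ - 1 ≤
        mA * ((1 / P + η * re (u * w) + C * η ^ 2) / mA) +
          mB * ((1 / Q - η * re (u * w) + C * η ^ 2) / mB) := hsplit ▸ hint
    rw [mul_div_cancel₀ _ hmA0.ne', mul_div_cancel₀ _ hmB0.ne'] at hint2
    have h5 : ‖φ z‖ + ‖f y‖ ≤ 2 * (1 + C * η ^ 2) := by linarith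
    have h6 : (‖φ z‖ + ‖f y‖) ^ 2 ≤ (2 * (1 + C * η ^ 2)) ^ 2 :=
      pow_le_pow_left₀ (by positivity) h5 2
    nlinarith [sq_nonneg (‖φ z‖ - ‖f y‖)]
  · have ny : ‖y‖ ^ P = Q ^ P / Q * (1 + (P ^ P / P) / (Q ^ P / Q) * η ^ P) := by
      rw [norm_two hp hA hB hAB hA1 hB1 _ _ y hy, abs_neg, abs_of_pos (by positivity),
        abs_of_pos (by positivity), Real.mul_rpow hQ0.le hlA0.le,
        Real.mul_rpow (by positivity) hlB0.le, Real.mul_rpow hη.le hP0.le, ← hPdef, hlAP, hlBP,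
        ← hmA, ← hmB]
      field_simp
    have nz : ‖z₀‖ ^ P = 1 / P * (1 + P / Q * t ^ P) := by
      rw [norm_two hp hA hB hAB hA1 hB1 _ _ z₀ hz₀, abs_of_nonneg (by positivity),
        abs_of_pos hlB0, Real.mul_rpow ht hlA0.le, ← hPdef, hlAP, hlBP, ← hmA, ← hmB]
      field_simp
      ring
    have fz : φ z₀ = ((1 + η * t : ℝ) : 𝕜) := by
      rw [(hφ z₀).2]
      have e : (fun ω => ((two A B (η / (mA * lA)) (1 / (mB * lB)) ω : ℝ) : 𝕜) * z₀ ω) =ᵐ[μ]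
          fun ω => ((two A B (η * t / mA) (1 / mB) ω : ℝ) : 𝕜) := by
        filter_upwards [hz₀] with ω h
        rw [h, ← ofReal_mul]
        congr 1
        by_cases ha : ω ∈ A
        · rw [two_A hAB _ _ ha, two_A hAB _ _ ha, two_A hAB _ _ ha]; field_simp
        · by_cases hb : ω ∈ B
          · rw [two_B hAB _ _ hb, two_B hAB _ _ hb, two_B hAB _ _ hb]; field_simp
          · rw [two_C _ _ ha hb, two_C _ _ ha hb, two_C _ _ ha hb, mul_zero]
      rw [integral_congr_ae e, integral_ofReal, two_integral hA hB hA1 hB1, ← hmA, ← hmB]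
      congr 1
      field_simp
      ring
    have hK : (P ^ (1 / P) * Q ^ (1 / Q)) ^ P = P * (Q ^ P / Q) := by
      rw [Real.mul_rpow (by positivity) (by positivity), ← Real.rpow_mul hP0.le,
        ← Real.rpow_mul hQ0.le, one_div_mul_cancel hP0.ne', Real.rpow_one,
        ← Real.rpow_sub_one hQ0.ne']
      congr 2
      have := hPQ.mul_eq_add
      field_simp
      linarith
    have h1 : 1 + η * t ≤ ‖φ‖ * ‖z₀‖ := by
      have := φ.le_opNorm z₀
      rwa [fz, norm_ofReal, abs_of_pos (by positivity)] at this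
    have hz0 : 0 < ‖z₀‖ := by
      rcases (norm_nonneg z₀).eq_or_lt with h | h
      · rw [← h, mul_zero] at h1
        have : 0 < 1 + η * t := by positivity
        linarith
      · exact h
    have h2 : (1 + C * η ^ 2) ^ 2 * (P ^ (1 / P) * Q ^ (1 / Q)) * ‖z₀‖ < (1 + η * t) * ‖y‖ := by
      refine lt_of_not_ge fun hc => ?_
      have h3 := Real.rpow_le_rpow (by positivity) hc hP0.le
      rw [Real.mul_rpow (by positivity) (norm_nonneg _),
        Real.mul_rpow (by positivity) (norm_nonneg _),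
        Real.mul_rpow (by positivity) (by positivity), ny, nz, hK] at h3
      have h4 := mul_lt_mul_of_pos_left hmain (show 0 < Q ^ P / Q by positivity)
      have e : ((1 + C * η ^ 2) ^ 2) ^ P * (P * (Q ^ P / Q)) * (1 / P * (1 + P / Q * t ^ P)) =
          Q ^ P / Q * (((1 + C * η ^ 2) ^ 2) ^ P * (1 + P / Q * t ^ P)) := by
        field_simp
      rw [e] at h3
      nlinarith
    have h3 : (1 + η * t) * ‖y‖ ≤ ‖φ‖ * ‖y‖ * ‖z₀‖ := by
      nlinarith [mul_le_mul_of_nonneg_right h1 (norm_nonneg y)]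
    exact lt_of_mul_lt_mul_right (h2.trans_le h3) hz0.le

end Pool.Agent.H549Z.R1
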