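import Mathlib

/-! Norming functionals on `L_p` and two disjoint sets of finite positive measure. -/
set_option autoImplicit false

open MeasureTheory Filter Topology RCLike
open scoped ENNReal

namespace Pool.Agent.H549Z.R1

variable {𝕜 : Type*} [RCLike 𝕜] {Ω : Type*} [MeasurableSpace Ω] {μ : Measure Ω}

/-- The directional derivative of `‖·‖ ^ P / P`. -/
noncomputable def Dir (P : ℝ) (z h : 𝕜) : ℝ := ‖z‖ ^ (P - 2) * re (h * (starRingEnd 𝕜) z)

theorem hasDerivAt_Dir (P : ℝ) (hP : 1 < P) (z h : 𝕜) :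
    HasDerivAt (fun t : ℝ => ‖z + t • h‖ ^ P) (P * Dir P z h) 0 := by
  have h1 := hasFDerivAt_norm_rpow (E := 𝕜) (z + (0 : ℝ) • h) hP
  have h2 : HasDerivAt (fun t : ℝ => z + t • h) h 0 := by
    simpa using ((hasDerivAt_id (0 : ℝ)).smul_const h).const_add z
  have h3 := h1.comp_hasDerivAt (0 : ℝ) h2
  convert! h3 using 1
  simp only [zero_smul, add_zero, Dir, FunLike.coe_smul, Pi.smul_apply, innerSL_apply_apply,
    smul_eq_mul]
  rw [mul_assoc]
  rfl

theorem conv_two (P : ℝ) (hP : 1 ≤ P) (u v : 𝕜) (a b : ℝ) (ha : 0 ≤ a) (hb : 0 ≤ b)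
    (hab : a + b = 1) : ‖a • u + b • v‖ ^ P ≤ a * ‖u‖ ^ P + b * ‖v‖ ^ P := by
  have h1 : ‖a • u + b • v‖ ≤ a * ‖u‖ + b * ‖v‖ := by
    refine (norm_add_le _ _).trans (le_of_eq ?_)
    rw [norm_smul, norm_smul, Real.norm_of_nonneg ha, Real.norm_of_nonneg hb]
  have h2 := (convexOn_rpow hP).2 (Set.mem_Ici.2 (norm_nonneg u)) (Set.mem_Ici.2 (norm_nonneg v))
    ha hb hab
  simp only [smul_eq_mul] at h2
  exact (Real.rpow_le_rpow (norm_nonneg _) h1 (by linarith)).trans h2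

theorem quot_bound (P : ℝ) (hP : 1 ≤ P) (z h : 𝕜) (t : ℝ) (ht : 0 < t) (ht1 : t ≤ 1) :
    |(‖z + t • h‖ ^ P - ‖z‖ ^ P) / t| ≤ ‖z + h‖ ^ P + ‖z - h‖ ^ P + ‖z‖ ^ P := by
  have n1 : 0 ≤ ‖z + h‖ ^ P := by positivity
  have n2 : 0 ≤ ‖z - h‖ ^ P := by positivity
  have n3 : 0 ≤ ‖z‖ ^ P := by positivity
  have h1 := conv_two P hP z (z + h) (1 - t) t (by linarith) ht.le (by ring)
  have e1 : (1 - t) • z + t • (z + h) = z + t • h := by
    rw [smul_add, ← add_assoc, ← add_smul]; simp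
  rw [e1] at h1
  have ht' : 0 < 1 + t := by linarith
  have h2 := conv_two P hP (z - h) (z + t • h) (t / (1 + t)) (1 / (1 + t)) (by positivity)
    (by positivity) (by field_simp; ring)
  have e2 : (t / (1 + t)) • (z - h) + (1 / (1 + t)) • (z + t • h) = z := by
    rw [smul_sub, smul_add, smul_smul]
    have a1 : 1 / (1 + t) * t = t / (1 + t) := by field_simp
    have a2 : t / (1 + t) + 1 / (1 + t) = 1 := by field_simp; ring
    rw [a1]
    calc (t / (1 + t)) • z - (t / (1 + t)) • h + ((1 / (1 + t)) • z + (t / (1 + t)) • h)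
        = (t / (1 + t) + 1 / (1 + t)) • z := by rw [add_smul]; abel
      _ = z := by rw [a2, one_smul]
  rw [e2] at h2
  have h3 : (1 + t) * ‖z‖ ^ P ≤ t * ‖z - h‖ ^ P + ‖z + t • h‖ ^ P := by
    have := mul_le_mul_of_nonneg_left h2 ht'.le
    refine this.trans (le_of_eq ?_)
    field_simp
  rw [abs_le]
  constructor
  · rw [le_div_iff₀ ht]
    nlinarith [mul_nonneg ht.le n1, mul_nonneg ht.le n3]
  · rw [div_le_iff₀ ht]
    nlinarith [mul_nonneg ht.le n2, mul_nonneg ht.le n3]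

theorem norm_rpow_eq {p : ℝ≥0∞} [Fact (1 ≤ p)] (hp : p ≠ ∞) (z : Lp 𝕜 p μ) :
    ‖z‖ ^ p.toReal = ∫ ω, ‖z ω‖ ^ p.toReal ∂μ := by
  have hp0 : p ≠ 0 := (lt_of_lt_of_le zero_lt_one Fact.out).ne'
  have hP : 0 < p.toReal := ENNReal.toReal_pos hp0 hp
  have h0 : 0 ≤ ∫ ω, ‖z ω‖ ^ p.toReal ∂μ := integral_nonneg fun ω => by positivity
  rw [Lp.norm_def, (Lp.memLp z).eLpNorm_eq_integral_rpow_norm hp0 hp,
    ENNReal.toReal_ofReal (by positivity), Real.rpow_inv_rpow h0 hP.ne']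

theorem norming {p : ℝ≥0∞} [Fact (1 ≤ p)] (hp : p ≠ ∞) (hP : 1 < p.toReal) (z y : Lp 𝕜 p μ)
    (f : Lp 𝕜 p μ →L[𝕜] 𝕜) (hz : ‖z‖ = 1) (hf : ‖f‖ = 1) (hfz : f z = 1) :
    Integrable (fun ω => Dir p.toReal (z ω) (y ω)) μ ∧
      re (f y) ≤ ∫ ω, Dir p.toReal (z ω) (y ω) ∂μ := by
  have hp0 : p ≠ 0 := (lt_of_lt_of_le zero_lt_one Fact.out).ne'
  set P := p.toReal with hPdef
  have hP0 : 0 < P := by linarith
  let t : ℕ → ℝ := fun n => 1 / ((n : ℝ) + 1)
  have ht0 : ∀ n, 0 < t n := fun n => Nat.one_div_pos_of_nat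
  have ht1 : ∀ n, t n ≤ 1 := fun n => by
    simp only [t]
    rw [div_le_one (by positivity)]
    linarith [(Nat.cast_nonneg n : (0 : ℝ) ≤ n)]
  have htlim : Tendsto t atTop (𝓝[≠] 0) := by
    refine tendsto_nhdsWithin_iff.2 ⟨tendsto_one_div_add_atTop_nhds_zero_nat, ?_⟩
    exact Eventually.of_forall fun n => (ht0 n).ne'
  let F : ℕ → Ω → ℝ := fun n ω => (‖z ω + t n • y ω‖ ^ P - ‖z ω‖ ^ P) / t n
  let bound : Ω → ℝ := fun ω => ‖z ω + y ω‖ ^ P + ‖z ω - y ω‖ ^ P + ‖z ω‖ ^ P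
  have iz : Integrable (fun ω => ‖z ω‖ ^ P) μ := (Lp.memLp z).integrable_norm_rpow hp0 hp
  have izt : ∀ s : ℝ, Integrable (fun ω => ‖z ω + s • y ω‖ ^ P) μ := fun s =>
    ((Lp.memLp z).add ((Lp.memLp y).const_smul s)).integrable_norm_rpow hp0 hp
  have hb : Integrable bound μ :=
    ((((Lp.memLp z).add (Lp.memLp y)).integrable_norm_rpow hp0 hp).add
      (((Lp.memLp z).sub (Lp.memLp y)).integrable_norm_rpow hp0 hp)).add iz
  have hFi : ∀ n, Integrable (F n) μ := fun n => ((izt (t n)).sub iz).div_const _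
  have hFb : ∀ n ω, ‖F n ω‖ ≤ bound ω := fun n ω =>
    quot_bound P hP.le (z ω) (y ω) (t n) (ht0 n) (ht1 n)
  have hlim : ∀ ω, Tendsto (fun n => F n ω) atTop (𝓝 (P * Dir P (z ω) (y ω))) := by
    intro ω
    have h1 := (hasDerivAt_Dir P hP (z ω) (y ω)).tendsto_slope_zero.comp htlim
    refine h1.congr fun n => ?_
    simp only [Function.comp, zero_add, zero_smul, add_zero, smul_eq_mul, F]
    rw [div_eq_inv_mul]
  have hmeas : AEStronglyMeasurable (fun ω => P * Dir P (z ω) (y ω)) μ :=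
    aestronglyMeasurable_of_tendsto_ae atTop (fun n => (hFi n).aestronglyMeasurable)
      (Eventually.of_forall hlim)
  have hint : Integrable (fun ω => P * Dir P (z ω) (y ω)) μ :=
    hb.mono' hmeas (Eventually.of_forall fun ω =>
      le_of_tendsto' (hlim ω).norm (fun n => hFb n ω))
  have hint2 : Integrable (fun ω => Dir P (z ω) (y ω)) μ := by
    have := hint.const_mul P⁻¹
    refine this.congr (Eventually.of_forall fun ω => ?_)
    simp only
    rw [← mul_assoc, inv_mul_cancel₀ hP0.ne', one_mul]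
  refine ⟨hint2, ?_⟩
  have hconv := tendsto_integral_of_dominated_convergence bound
    (fun n => (hFi n).aestronglyMeasurable) hb (fun n => Eventually.of_forall (hFb n))
    (Eventually.of_forall hlim)
  have hlow : ∀ n, P * re (f y) ≤ ∫ ω, F n ω ∂μ := by
    intro n
    have e1 : ∫ ω, F n ω ∂μ = (‖z + ((t n : ℝ) : 𝕜) • y‖ ^ P - 1) / t n := by
      simp only [F]
      rw [integral_div, integral_sub (izt _) iz, ← norm_rpow_eq hp z, hz, Real.one_rpow,
        norm_rpow_eq hp]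
      congr 2
      refine integral_congr_ae ?_
      filter_upwards [Lp.coeFn_add z (((t n : ℝ) : 𝕜) • y), Lp.coeFn_smul ((t n : ℝ) : 𝕜) y]
        with ω h1 h2
      rw [h1, Pi.add_apply, h2, Pi.smul_apply, real_smul_eq_coe_smul (K := 𝕜)]
    have h2 : 1 + t n * re (f y) ≤ ‖z + ((t n : ℝ) : 𝕜) • y‖ := by
      have a1 := f.le_opNorm (z + ((t n : ℝ) : 𝕜) • y)
      rw [hf, one_mul, map_add, map_smul, hfz, smul_eq_mul] at a1
      refine le_trans ?_ ((re_le_norm _).trans a1)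
      rw [map_add, one_re, re_ofReal_mul]
    have h3 := one_add_mul_self_le_rpow_one_add (s := ‖z + ((t n : ℝ) : 𝕜) • y‖ - 1)
      (by linarith [norm_nonneg (z + ((t n : ℝ) : 𝕜) • y)]) hP.le
    rw [show 1 + (‖z + ((t n : ℝ) : 𝕜) • y‖ - 1) = ‖z + ((t n : ℝ) : 𝕜) • y‖ by ring] at h3
    rw [e1, le_div_iff₀ (ht0 n)]
    nlinarith
  have h4 := ge_of_tendsto' hconv hlow
  rw [integral_const_mul] at h4
  exact le_of_mul_le_mul_left h4 hP0

theorem two_sets {p : ℝ≥0∞} [Fact (1 ≤ p)] (hp : p ≠ ∞)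
    (hdim : 1 < Module.rank 𝕜 (Lp 𝕜 p μ)) :
    ∃ A B : Set Ω, MeasurableSet A ∧ MeasurableSet B ∧ Disjoint A B ∧
      μ A ≠ 0 ∧ μ A ≠ ∞ ∧ μ B ≠ 0 ∧ μ B ≠ ∞ := by
  by_contra hcon
  push Not at hcon
  have key : ∃ v : Lp 𝕜 p μ, ∀ (c : 𝕜) (s : Set Ω) (hs : MeasurableSet s) (hμs : μ s ≠ ∞),
      indicatorConstLp p hs hμs c ∈ Submodule.span 𝕜 ({v} : Set (Lp 𝕜 p μ)) := by
    have zero_case : ∀ (c : 𝕜) (s : Set Ω) (hs : MeasurableSet s) (hμs : μ s ≠ ∞), μ s = 0 →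
        indicatorConstLp p hs hμs c = 0 := by
      intro c s hs hμs h0
      refine Lp.ext ?_
      filter_upwards [indicatorConstLp_coeFn (p := p) (hs := hs) (hμs := hμs) (c := c),
        Lp.coeFn_zero 𝕜 p μ, measure_eq_zero_iff_ae_notMem.1 h0] with ω h1 h2 h3
      rw [h1, h2, Set.indicator_of_notMem h3]
      rfl
    by_cases hA : ∃ A : Set Ω, MeasurableSet A ∧ μ A ≠ 0 ∧ μ A ≠ ∞
    · obtain ⟨A, hA, hA0, hA1⟩ := hA
      refine ⟨indicatorConstLp p hA hA1 1, fun c s hs hμs => ?_⟩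
      by_cases h0 : μ s = 0
      · rw [zero_case c s hs hμs h0]; exact Submodule.zero_mem _
      have h1 : μ (s \ A) = 0 := by
        by_contra h
        exact ne_top_of_le_ne_top hμs (measure_mono Set.sdiff_subset)
          (hcon A (s \ A) hA (hs.diff hA) Set.disjoint_sdiff_right hA0 hA1 h)
      have h2 : μ (A \ s) = 0 := by
        by_contra h
        exact ne_top_of_le_ne_top hA1 (measure_mono Set.sdiff_subset)
          (hcon s (A \ s) hs (hA.diff hs) Set.disjoint_sdiff_right h0 hμs h)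
      refine Submodule.mem_span_singleton.2 ⟨c, ?_⟩
      refine Lp.ext ?_
      filter_upwards [indicatorConstLp_coeFn (p := p) (hs := hs) (hμs := hμs) (c := c),
        indicatorConstLp_coeFn (p := p) (hs := hA) (hμs := hA1) (c := (1 : 𝕜)),
        Lp.coeFn_smul c (indicatorConstLp p hA hA1 (1 : 𝕜)),
        measure_eq_zero_iff_ae_notMem.1 h1, measure_eq_zero_iff_ae_notMem.1 h2]
        with ω a1 a2 a3 a4 a5
      rw [a3, Pi.smul_apply, a2, a1]
      by_cases hω : ω ∈ s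
      · have : ω ∈ A := by
          by_contra h
          exact a4 ⟨hω, h⟩
        simp [hω, this]
      · have : ω ∉ A := fun h => a5 ⟨h, hω⟩
        simp [hω, this]
    · push Not at hA
      refine ⟨0, fun c s hs hμs => ?_⟩
      rw [zero_case c s hs hμs (by
        by_contra h
        exact hμs (hA s hs h))]
      exact Submodule.zero_mem _
  obtain ⟨v, hv⟩ := key
  have hall : ∀ f : Lp 𝕜 p μ, f ∈ Submodule.span 𝕜 ({v} : Set (Lp 𝕜 p μ)) := by
    refine Lp.induction hp _ ?_ ?_ ?_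
    · intro c s hs hμs
      rw [Lp.simpleFunc.coe_indicatorConst]
      exact hv c s hs hμs.ne
    · intro f g _ _ _ h1 h2
      exact Submodule.add_mem _ h1 h2
    · exact (Submodule.span 𝕜 ({v} : Set (Lp 𝕜 p μ))).closed_of_finiteDimensional
  have h1 : Module.rank 𝕜 (Lp 𝕜 p μ) ≤ 1 := by
    rw [rank_le_one_iff]
    exact ⟨v, fun f => Submodule.mem_span_singleton.1 (hall f)⟩
  exact absurd hdim (not_lt.2 h1)

end Pool.Agent.H549Z.R1
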