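import Pool.Agent.H549Z.R1.Point
import Pool.Agent.H549Z.R1.Norming

/-! A rank-one operator on `L_p` with small numerical radius. -/
set_option autoImplicit false

open MeasureTheory Filter Topology RCLike
open scoped ENNReal

namespace Pool.Agent.H549Z.R1

variable {𝕜 : Type*} [RCLike 𝕜] {Ω : Type*} [MeasurableSpace Ω] {μ : Measure Ω}

theorem polar (P : ℝ) (hP : 1 < P) (z : 𝕜) : ∃ e : 𝕜, ‖e‖ = 1 ∧
    (∀ u : 𝕜, re (u * z) = ‖z‖ * re (u * e)) ∧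
    (∀ w : 𝕜, Dir P z w = ‖z‖ ^ (P - 1) * re (w * (starRingEnd 𝕜) e)) := by
  by_cases hz : z = 0
  · subst hz
    refine ⟨1, norm_one, fun u => by simp, fun w => ?_⟩
    simp [Dir, Real.zero_rpow (show P - 1 ≠ 0 by linarith)]
  · have hn : 0 < ‖z‖ := norm_pos_iff.2 hz
    have hn' : ((‖z‖ : ℝ) : 𝕜) ≠ 0 := by exact_mod_cast hn.ne'
    set e : 𝕜 := z / ((‖z‖ : ℝ) : 𝕜) with he
    have hze : z = ((‖z‖ : ℝ) : 𝕜) * e := by rw [he]; field_simp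
    refine ⟨e, ?_, fun u => ?_, fun w => ?_⟩
    · rw [he, norm_div, norm_ofReal, abs_of_pos hn, div_self hn.ne']
    · conv_lhs => rw [hze]
      rw [mul_left_comm, re_ofReal_mul]
    · unfold Dir
      have : w * (starRingEnd 𝕜) z = ((‖z‖ : ℝ) : 𝕜) * (w * (starRingEnd 𝕜) e) := by
        conv_lhs => rw [hze]
        rw [map_mul, conj_ofReal]; ring
      rw [this, re_ofReal_mul, ← mul_assoc, ← Real.rpow_add_one hn.ne']
      congr 2; ring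

theorem Dir_real (P : ℝ) (z w : 𝕜) (a : ℝ) : Dir P z (w * (a : 𝕜)) = a * Dir P z w := by
  unfold Dir
  rw [show w * (a : 𝕜) * (starRingEnd 𝕜) z = (a : 𝕜) * (w * (starRingEnd 𝕜) z) by ring,
    re_ofReal_mul]
  ring

theorem point_both (P Q : ℝ) (hPQ : P.HolderConjugate Q) : ∃ C η₀ : ℝ, 0 < C ∧ 0 < η₀ ∧
    ∀ (η l : ℝ) (z u w : 𝕜), |η| ≤ η₀ → 0 < l → ‖u‖ = 1 → ‖w‖ = 1 →
      (1 / l * re (u * z) - η / l ^ (P - 1) * Dir P z w - ‖z‖ ^ P / (P * l ^ P)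
        ≤ 1 / Q - η * re (u * w) + C * η ^ 2) ∧
      (η / l * re (u * z) + 1 / l ^ (P - 1) * Dir P z w - ‖z‖ ^ P / (Q * l ^ P)
        ≤ 1 / P + η * re (u * w) + C * η ^ 2) := by
  have hP := hPQ.lt
  have hQ := hPQ.symm.lt
  have hsum : 1 / P + 1 / Q = 1 := by
    rw [one_div, one_div]; exact hPQ.inv_add_inv_eq_one
  obtain ⟨C₁, η₁, hC₁, hη₁, h₁⟩ := point_field (𝕜 := 𝕜) P hP
  obtain ⟨C₂, η₂, hC₂, hη₂, h₂⟩ := point_field (𝕜 := 𝕜) Q hQ
  refine ⟨C₁ + C₂, min η₁ η₂, by positivity, by positivity, ?_⟩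
  intro η l z u w hη hl hu hw
  obtain ⟨e, he, h3, h4⟩ := polar P hP z
  have hρ : 0 ≤ ‖z‖ / l := by positivity
  have e1 : (‖z‖ / l) ^ (P - 1) = ‖z‖ ^ (P - 1) / l ^ (P - 1) :=
    Real.div_rpow (norm_nonneg _) hl.le _
  have e2 : (‖z‖ / l) ^ P = ‖z‖ ^ P / l ^ P := Real.div_rpow (norm_nonneg _) hl.le _
  have hc1 : 0 ≤ C₁ * η ^ 2 := by positivity
  have hc2 : 0 ≤ C₂ * η ^ 2 := by positivity
  constructor
  · have h := h₁ (-η) (‖z‖ / l) u w e (by rw [abs_neg]; exact hη.trans (min_le_left _ _)) hρ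
      hu hw he
    rw [e1, e2] at h
    rw [h3, h4]
    have a1 : 1 / l * (‖z‖ * re (u * e)) - η / l ^ (P - 1) *
        (‖z‖ ^ (P - 1) * re (w * (starRingEnd 𝕜) e)) - ‖z‖ ^ P / (P * l ^ P) =
        ‖z‖ / l * re (u * e) + -η * (‖z‖ ^ (P - 1) / l ^ (P - 1) * re (w * (starRingEnd 𝕜) e))
          - ‖z‖ ^ P / l ^ P / P := by
      rw [div_div, mul_comm (l ^ P) P]; ring
    rw [a1]
    nlinarith
  · have h := h₂ η ((‖z‖ / l) ^ (P - 1)) w u ((starRingEnd 𝕜) e)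
      (hη.trans (min_le_right _ _)) (by positivity) hw hu (by rw [norm_conj, he])
    have b1 : (P - 1) * (Q - 1) = 1 := by
      have := hPQ.mul_eq_add
      linarith
    have b2 : (P - 1) * Q = P := hPQ.sub_one_mul_conj
    rw [← Real.rpow_mul hρ, ← Real.rpow_mul hρ, b1, b2, Real.rpow_one, e1, e2, conj_conj,
      mul_comm w u] at h
    rw [h3, h4]
    have a1 : η / l * (‖z‖ * re (u * e)) + 1 / l ^ (P - 1) *
        (‖z‖ ^ (P - 1) * re (w * (starRingEnd 𝕜) e)) - ‖z‖ ^ P / (Q * l ^ P) =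
        ‖z‖ ^ (P - 1) / l ^ (P - 1) * re (w * (starRingEnd 𝕜) e) + η * (‖z‖ / l * re (u * e))
          - ‖z‖ ^ P / l ^ P / Q := by
      rw [div_div, mul_comm (l ^ P) Q]; ring
    rw [a1]
    nlinarith

theorem exists_unit (x : 𝕜) : ∃ u : 𝕜, ‖u‖ = 1 ∧ re (u * x) = ‖x‖ := by
  by_cases hx : x = 0
  · exact ⟨1, norm_one, by simp [hx]⟩
  · have hn : 0 < ‖x‖ := norm_pos_iff.2 hx
    have hn' : ((‖x‖ : ℝ) : 𝕜) ≠ 0 := by exact_mod_cast hn.ne'
    refine ⟨(starRingEnd 𝕜) x / ((‖x‖ : ℝ) : 𝕜), ?_, ?_⟩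
    · rw [norm_div, norm_conj, norm_ofReal, abs_of_pos hn, div_self hn.ne']
    · have : (starRingEnd 𝕜) x / ((‖x‖ : ℝ) : 𝕜) * x = ((‖x‖ : ℝ) : 𝕜) := by
        rw [div_mul_eq_mul_div, RCLike.conj_mul]; field_simp
      rw [this, ofReal_re]

/-- a two-valued real function -/
noncomputable def two (A B : Set Ω) (a b : ℝ) : Ω → ℝ :=
  fun ω => A.indicator (fun _ => a) ω + B.indicator (fun _ => b) ω

theorem two_A {A B : Set Ω} (h : Disjoint A B) (a b : ℝ) {ω : Ω} (hω : ω ∈ A) :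
    two A B a b ω = a := by
  have : ω ∉ B := Set.disjoint_left.1 h hω
  simp [two, hω, this]

theorem two_B {A B : Set Ω} (h : Disjoint A B) (a b : ℝ) {ω : Ω} (hω : ω ∈ B) :
    two A B a b ω = b := by
  have : ω ∉ A := Set.disjoint_right.1 h hω
  simp [two, hω, this]

theorem two_C {A B : Set Ω} (a b : ℝ) {ω : Ω} (h1 : ω ∉ A) (h2 : ω ∉ B) :
    two A B a b ω = 0 := by
  simp [two, h1, h2]

theorem two_integrable {A B : Set Ω} (hA : MeasurableSet A) (hB : MeasurableSet B)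
    (hA1 : μ A ≠ ∞) (hB1 : μ B ≠ ∞) (a b : ℝ) : Integrable (two A B a b) μ :=
  ((integrableOn_const hA1).integrable_indicator hA).add
    ((integrableOn_const hB1).integrable_indicator hB)

theorem two_integral {A B : Set Ω} (hA : MeasurableSet A) (hB : MeasurableSet B)
    (hA1 : μ A ≠ ∞) (hB1 : μ B ≠ ∞) (a b : ℝ) :
    ∫ ω, two A B a b ω ∂μ = μ.real A * a + μ.real B * b := by
  unfold two
  rw [integral_add ((integrableOn_const hA1).integrable_indicator hA)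
    ((integrableOn_const hB1).integrable_indicator hB), integral_indicator_const _ hA,
    integral_indicator_const _ hB, smul_eq_mul, smul_eq_mul]

theorem exists_two (p : ℝ≥0∞) {A B : Set Ω} (hA : MeasurableSet A) (hB : MeasurableSet B)
    (hA1 : μ A ≠ ∞) (hB1 : μ B ≠ ∞) (a b : ℝ) :
    ∃ y : Lp 𝕜 p μ, ∀ᵐ ω ∂μ, y ω = ((two A B a b ω : ℝ) : 𝕜) := by
  refine ⟨indicatorConstLp p hA hA1 (a : 𝕜) + indicatorConstLp p hB hB1 (b : 𝕜), ?_⟩
  filter_upwards [Lp.coeFn_add (indicatorConstLp p hA hA1 (a : 𝕜))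
    (indicatorConstLp p hB hB1 (b : 𝕜)),
    indicatorConstLp_coeFn (p := p) (hs := hA) (hμs := hA1) (c := (a : 𝕜)),
    indicatorConstLp_coeFn (p := p) (hs := hB) (hμs := hB1) (c := (b : 𝕜))] with ω h1 h2 h3
  rw [h1, Pi.add_apply, h2, h3]
  unfold two
  by_cases ha : ω ∈ A <;> by_cases hb : ω ∈ B <;> simp [ha, hb]

theorem norm_two {p : ℝ≥0∞} [Fact (1 ≤ p)] (hp : p ≠ ∞) {A B : Set Ω} (hA : MeasurableSet A)
    (hB : MeasurableSet B) (hAB : Disjoint A B) (hA1 : μ A ≠ ∞) (hB1 : μ B ≠ ∞) (a b : ℝ)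
    (y : Lp 𝕜 p μ) (hy : ∀ᵐ ω ∂μ, y ω = ((two A B a b ω : ℝ) : 𝕜)) :
    ‖y‖ ^ p.toReal = μ.real A * |a| ^ p.toReal + μ.real B * |b| ^ p.toReal := by
  have hp0 : p ≠ 0 := (lt_of_lt_of_le zero_lt_one Fact.out).ne'
  have hP : 0 < p.toReal := ENNReal.toReal_pos hp0 hp
  rw [norm_rpow_eq hp, ← two_integral hA hB hA1 hB1]
  refine integral_congr_ae ?_
  filter_upwards [hy] with ω h
  rw [h, norm_ofReal]
  by_cases ha : ω ∈ A
  · rw [two_A hAB _ _ ha, two_A hAB _ _ ha]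
  · by_cases hb : ω ∈ B
    · rw [two_B hAB _ _ hb, two_B hAB _ _ hb]
    · rw [two_C _ _ ha hb, two_C _ _ ha hb, abs_zero, Real.zero_rpow hP.ne']

theorem exists_functional (p : ℝ≥0∞) [Fact (1 ≤ p)] {A B : Set Ω} (hA : MeasurableSet A)
    (hB : MeasurableSet B) (hA1 : μ A ≠ ∞) (hB1 : μ B ≠ ∞) (a b : ℝ) :
    ∃ φ : Lp 𝕜 p μ →L[𝕜] 𝕜, ∀ z : Lp 𝕜 p μ,
      Integrable (fun ω => ((two A B a b ω : ℝ) : 𝕜) * z ω) μ ∧
      φ z = ∫ ω, ((two A B a b ω : ℝ) : 𝕜) * z ω ∂μ := by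
  haveI hq : (ENNReal.conjExponent p).HolderConjugate p :=
    (inferInstance : p.HolderConjugate (ENNReal.conjExponent p)).symm
  haveI : Fact (1 ≤ ENNReal.conjExponent p) := ⟨ENNReal.HolderConjugate.one_le _ p⟩
  obtain ⟨g, hg⟩ := exists_two (𝕜 := 𝕜) (μ := μ) (ENNReal.conjExponent p) hA hB hA1 hB1 a b
  refine ⟨(ContinuousLinearMap.mul 𝕜 𝕜).lpPairing μ (ENNReal.conjExponent p) p g, fun z => ?_⟩
  have e : (fun ω => (ContinuousLinearMap.mul 𝕜 𝕜) (g ω) (z ω)) =ᵐ[μ]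
      fun ω => ((two A B a b ω : ℝ) : 𝕜) * z ω := by
    filter_upwards [hg] with ω h
    rw [h]; rfl
  constructor
  · refine Integrable.congr ?_ e
    exact memLp_one_iff_integrable.1
      ((ContinuousLinearMap.mul 𝕜 𝕜).memLp_of_bilin 1 (Lp.memLp g) (Lp.memLp z))
  · rw [ContinuousLinearMap.lpPairing_eq_integral]
    exact integral_congr_ae e

end Pool.Agent.H549Z.R1
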