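import Mathlib

/-! Pointwise inequalities for the rank-one numerical index of `L_p`. -/
set_option autoImplicit false

namespace Pool.Agent.H549Z.R1

theorem one_add_rpow_le (r θ : ℝ) (hr : 1 < r) (hθ : |r * θ| ≤ 1 / 2) :
    (1 + θ) ^ r ≤ 1 + r * θ + (r * θ) ^ 2 := by
  have h1 : |θ| ≤ 1 / 2 := by
    rw [abs_mul, abs_of_pos (by linarith : (0 : ℝ) < r)] at hθ
    nlinarith [abs_nonneg θ]
  have h2 : 0 < 1 + θ := by linarith [(abs_le.1 h1).1]
  rw [Real.rpow_def_of_pos h2]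
  have h3 : Real.log (1 + θ) * r ≤ r * θ := by
    have := Real.log_le_sub_one_of_pos h2
    nlinarith
  have h4 := Real.abs_exp_sub_one_sub_id_le (x := r * θ) (by linarith)
  have h5 := Real.exp_le_exp.2 h3
  linarith [(abs_le.1 h4).2]

/-- Young's inequality with the second factor equal to one. -/
theorem young_one (r ρ : ℝ) (hr : 1 < r) (hρ : 0 ≤ ρ) : ρ ≤ ρ ^ r / r + (1 - 1 / r) := by
  have h := one_add_mul_self_le_rpow_one_add (s := ρ - 1) (by linarith) hr.le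
  rw [show 1 + (ρ - 1) = ρ by ring] at h
  have hr0 : 0 < r := by linarith
  have e : ρ ^ r / r + (1 - 1 / r) = (ρ ^ r + r - 1) / r := by field_simp; ring
  rw [e, le_div_iff₀ hr0]
  linarith

/-- The gap in Young's inequality dominates a small multiple of the derivative. -/
theorem gap_bound (r : ℝ) (hr : 1 < r) : ∃ K θ₀ : ℝ, 0 < K ∧ 0 < θ₀ ∧ ∀ θ ρ : ℝ, |θ| ≤ θ₀ → 0 ≤ ρ →
    θ * (ρ ^ r - ρ) ≤ 2 * (ρ ^ r / r - ρ + 1 - 1 / r) + K * θ ^ 2 := by
  have hr0 : 0 < r := by linarith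
  -- `ρ ^ r ≤ L (Y + 1)`
  obtain ⟨L, hL0, hL⟩ : ∃ L : ℝ, 0 < L ∧ ∀ ρ : ℝ, 0 ≤ ρ →
      ρ ^ r ≤ L * ((ρ ^ r / r - ρ + 1 - 1 / r) + 1) := by
    have hs : 0 < 1 - 1 / r := by
      rw [sub_pos, div_lt_one hr0]; exact hr
    -- use Young at `2ρ`: `2ρ ≤ ...` is too weak, so use the point `ρ / c`
    set c : ℝ := (2 : ℝ) ^ (1 / (r - 1)) with hc
    have hc0 : 0 < c := Real.rpow_pos_of_pos two_pos _
    have hcr : c ^ r = 2 * c := by
      have : c ^ r = c ^ (r - 1) * c := by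
        rw [← Real.rpow_add_one hc0.ne']; ring_nf
      rw [this, hc, ← Real.rpow_mul (by norm_num), one_div_mul_cancel (by linarith), Real.rpow_one]
    refine ⟨2 * r * (c + 1), by positivity, fun ρ hρ => ?_⟩
    have h1 := young_one r (ρ / c) hr (by positivity)
    rw [Real.div_rpow hρ hc0.le, hcr] at h1
    have h2 : ρ ≤ ρ ^ r / (2 * r) + c * (1 - 1 / r) := by
      have e : ρ ^ r / (2 * r) + c * (1 - 1 / r) = c * (ρ ^ r / (2 * c) / r + (1 - 1 / r)) := by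
        field_simp
      rw [e]
      calc ρ = c * (ρ / c) := by field_simp
        _ ≤ _ := mul_le_mul_of_nonneg_left h1 hc0.le
    have h3 := young_one r ρ hr hρ
    have h4 : 1 - 1 / r ≤ 1 := by
      have : 0 < 1 / r := by positivity
      linarith
    set Y := ρ ^ r / r - ρ + 1 - 1 / r with hY
    have hY0 : 0 ≤ Y := by rw [hY]; linarith
    have h5 : ρ ^ r / (2 * r) ≤ Y + c := by
      have e : ρ ^ r / r = ρ ^ r / (2 * r) + ρ ^ r / (2 * r) := by field_simp; ring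
      have : c * (1 - 1 / r) ≤ c := by nlinarith
      rw [hY]; linarith
    rw [div_le_iff₀ (by positivity)] at h5
    nlinarith [mul_nonneg hc0.le hY0, mul_nonneg hr0.le hY0, mul_nonneg (mul_nonneg hr0.le hc0.le) hY0]
  refine ⟨r * L, min (1 / (2 * r)) (1 / (r * L + 1)), by positivity, by positivity, ?_⟩
  intro θ ρ hθ hρ
  have hθ1 : |θ| ≤ 1 / (2 * r) := hθ.trans (min_le_left _ _)
  have hθ2 : |θ| ≤ 1 / (r * L + 1) := hθ.trans (min_le_right _ _)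
  have hrθ : |r * (-θ)| ≤ 1 / 2 := by
    rw [abs_mul, abs_neg, abs_of_pos hr0]
    calc r * |θ| ≤ r * (1 / (2 * r)) := mul_le_mul_of_nonneg_left hθ1 hr0.le
      _ = 1 / 2 := by field_simp
  have hθ3 : |θ| ≤ 1 / 2 := by
    refine hθ1.trans ?_
    rw [div_le_div_iff₀ (by positivity) (by norm_num)]; linarith
  have h1θ : 0 ≤ 1 + -θ := by linarith [(abs_le.1 hθ3).2]
  have h1 := young_one r (ρ * (1 + -θ)) hr (mul_nonneg hρ h1θ)
  rw [Real.mul_rpow hρ h1θ] at h1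
  have h2 := one_add_rpow_le r (-θ) hr hrθ
  have hρr : 0 ≤ ρ ^ r := Real.rpow_nonneg hρ r
  have h3 : ρ ^ r * (1 + -θ) ^ r / r ≤ ρ ^ r / r - θ * ρ ^ r + r * θ ^ 2 * ρ ^ r := by
    have e : ρ ^ r / r - θ * ρ ^ r + r * θ ^ 2 * ρ ^ r =
        ρ ^ r * (1 + r * (-θ) + (r * (-θ)) ^ 2) / r := by field_simp; ring
    rw [e]
    exact div_le_div_of_nonneg_right (mul_le_mul_of_nonneg_left h2 hρr) hr0.le
  set Y := ρ ^ r / r - ρ + 1 - 1 / r with hY
  have hY0 : 0 ≤ Y := by have := young_one r ρ hr hρ; rw [hY]; linarith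
  have h4 : θ * (ρ ^ r - ρ) ≤ Y + r * θ ^ 2 * ρ ^ r := by rw [hY]; nlinarith
  have h5 : r * θ ^ 2 * ρ ^ r ≤ r * θ ^ 2 * (L * (Y + 1)) :=
    mul_le_mul_of_nonneg_left (hL ρ hρ) (by positivity)
  have h6 : r * L * θ ^ 2 ≤ 1 := by
    have a1 : |θ| * (r * L + 1) ≤ 1 := by
      rwa [le_div_iff₀ (by positivity)] at hθ2
    have a2 : θ ^ 2 = |θ| * |θ| := by rw [← sq, sq_abs]
    have a3 : 0 ≤ |θ| := abs_nonneg θ
    have a4 : 0 < r * L := by positivity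
    rw [a2]
    nlinarith
  nlinarith [mul_le_mul_of_nonneg_right h6 hY0]

/-- The real form of the pointwise inequality. -/
theorem point_real (r : ℝ) (hr : 1 < r) : ∃ C η₀ : ℝ, 0 < C ∧ 0 < η₀ ∧
    ∀ η ρ α β γ : ℝ, |η| ≤ η₀ → 0 ≤ ρ → α ≤ 1 → |β| ≤ 1 → |γ| ≤ 1 → (β - γ) ^ 2 ≤ 2 - 2 * α →
      ρ * α + η * (ρ ^ (r - 1) * β) - ρ ^ r / r ≤ 1 - 1 / r + η * γ + C * η ^ 2 := by
  have hr0 : 0 < r := by linarith
  obtain ⟨K, θ₀, hK, hθ₀, hgap⟩ := gap_bound r hr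
  -- the gap at points below one half
  obtain ⟨y₀, hy₀, hy⟩ : ∃ y₀ : ℝ, 0 < y₀ ∧ ∀ ρ : ℝ, 0 ≤ ρ → ρ ≤ 1 / 2 →
      y₀ ≤ ρ ^ r / r - ρ + 1 - 1 / r := by
    have hcont : ContinuousOn (fun ρ : ℝ => ρ ^ r / r - ρ + 1 - 1 / r) (Set.Icc 0 (1 / 2)) := by
      have : Continuous (fun ρ : ℝ => ρ ^ r) := Real.continuous_rpow_const hr0.le
      fun_prop
    obtain ⟨ρ₀, hρ₀, hmin⟩ := isCompact_Icc.exists_isMinOn (Set.nonempty_Icc.2 (by norm_num)) hcont
    refine ⟨ρ₀ ^ r / r - ρ₀ + 1 - 1 / r, ?_, fun ρ h1 h2 => hmin ⟨h1, h2⟩⟩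
    have h := one_add_mul_self_lt_rpow_one_add (s := ρ₀ - 1) (by linarith [hρ₀.1])
      (by linarith [hρ₀.2]) hr
    rw [show 1 + (ρ₀ - 1) = ρ₀ by ring] at h
    have e : ρ₀ ^ r / r - ρ₀ + 1 - 1 / r = (ρ₀ ^ r - (1 + r * (ρ₀ - 1))) / r := by
      field_simp; ring
    rw [e]
    exact div_pos (by linarith) hr0
  refine ⟨8 * K + 1, min (θ₀ / 4) (y₀ / 2), by positivity, by positivity, ?_⟩
  intro η ρ α β γ hη hρ hα hβ hγ hβγ
  have hη1 : |η| ≤ θ₀ / 4 := hη.trans (min_le_left _ _)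
  have hη2 : |η| ≤ y₀ / 2 := hη.trans (min_le_right _ _)
  have hC : 0 ≤ K * η ^ 2 := by positivity
  rcases le_or_gt ρ (1 / 2) with h | h
  · have h1 := hy ρ hρ h
    have h2 : ρ ^ (r - 1) ≤ 1 := Real.rpow_le_one hρ (by linarith) (by linarith)
    have h3 : 0 ≤ ρ ^ (r - 1) := Real.rpow_nonneg hρ _
    have h4 : |ρ ^ (r - 1) * β - γ| ≤ 2 := by
      have : |ρ ^ (r - 1) * β| ≤ 1 := by
        rw [abs_mul, abs_of_nonneg h3]
        nlinarith [abs_nonneg β]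
      calc |ρ ^ (r - 1) * β - γ| ≤ |ρ ^ (r - 1) * β| + |γ| := abs_sub _ _
        _ ≤ 2 := by linarith
    have h5 : η * (ρ ^ (r - 1) * β - γ) ≤ y₀ := by
      calc η * (ρ ^ (r - 1) * β - γ) ≤ |η * (ρ ^ (r - 1) * β - γ)| := le_abs_self _
        _ = |η| * |ρ ^ (r - 1) * β - γ| := abs_mul _ _
        _ ≤ y₀ / 2 * 2 := mul_le_mul hη2 h4 (abs_nonneg _) (by positivity)
        _ = y₀ := by ring
    nlinarith [mul_le_mul_of_nonneg_left hα hρ, sq_nonneg η]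
  · have hρ0 : 0 < ρ := by linarith
    have e : ρ ^ r = ρ * ρ ^ (r - 1) := by
      rw [mul_comm, ← Real.rpow_add_one hρ0.ne']; ring_nf
    set g := ρ ^ (r - 1) - 1 with hg
    set Y := ρ ^ r / r - ρ + 1 - 1 / r with hY
    -- `|η| |g| ≤ Y + 8 K η²`
    have h1 : |η| * |g| ≤ Y + 8 * K * η ^ 2 := by
      have key : ∀ θ : ℝ, |θ| = 4 * |η| → θ * (ρ * g) ≤ 2 * Y + 16 * K * η ^ 2 := by
        intro θ hθ
        have a1 := hgap θ ρ (by linarith) hρ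
        have a2 : θ ^ 2 = 16 * η ^ 2 := by rw [← sq_abs θ, hθ, mul_pow, sq_abs]; norm_num
        rw [a2, ← hY] at a1
        have a3 : ρ ^ r - ρ = ρ * g := by rw [e, hg]; ring
        rw [a3] at a1
        linarith
      have a4 : 4 * |η| * (ρ * |g|) ≤ 2 * Y + 16 * K * η ^ 2 := by
        rcases le_total 0 g with hg0 | hg0
        · rw [abs_of_nonneg hg0]
          exact key _ (abs_of_nonneg (by positivity))
        · rw [abs_of_nonpos hg0]
          have := key (-(4 * |η|)) (by rw [abs_neg]; exact abs_of_nonneg (by positivity))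
          linarith
      nlinarith [mul_nonneg (abs_nonneg η) (abs_nonneg g)]
    have h2 : η * (g * β) ≤ |η| * |g| := by
      calc η * (g * β) ≤ |η * (g * β)| := le_abs_self _
        _ = |η| * (|g| * |β|) := by rw [abs_mul, abs_mul]
        _ ≤ |η| * (|g| * 1) := by gcongr
        _ = _ := by ring
    have h3 : η * (β - γ) ≤ ρ * (1 - α) + η ^ 2 := by
      nlinarith [sq_nonneg (η - (β - γ) / 2)]
    have e2 : ρ ^ (r - 1) = g + 1 := by rw [hg]; ring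
    rw [e2]
    have e3 : ρ ^ r / r = Y + ρ - 1 + 1 / r := by rw [hY]; ring
    rw [e3]
    nlinarith

open RCLike in
/-- The pointwise inequality over the scalar field. -/
theorem point_field {𝕜 : Type*} [RCLike 𝕜] (r : ℝ) (hr : 1 < r) : ∃ C η₀ : ℝ, 0 < C ∧ 0 < η₀ ∧
    ∀ (η ρ : ℝ) (u w e : 𝕜), |η| ≤ η₀ → 0 ≤ ρ → ‖u‖ = 1 → ‖w‖ = 1 → ‖e‖ = 1 →
      ρ * re (u * e) + η * (ρ ^ (r - 1) * re (w * (starRingEnd 𝕜) e)) - ρ ^ r / r
        ≤ 1 - 1 / r + η * re (u * w) + C * η ^ 2 := by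
  obtain ⟨C, η₀, hC, hη₀, h⟩ := point_real r hr
  refine ⟨C, η₀, hC, hη₀, fun η ρ u w e hη hρ hu hw he => h η ρ _ _ _ hη hρ ?_ ?_ ?_ ?_⟩
  · refine (re_le_norm _).trans ?_
    rw [norm_mul, hu, he, mul_one]
  · refine (abs_re_le_norm _).trans ?_
    rw [norm_mul, hw, norm_conj, he, mul_one]
  · refine (abs_re_le_norm _).trans ?_
    rw [norm_mul, hu, hw, mul_one]
  · have h1 : |re (w * (starRingEnd 𝕜) e) - re (u * w)| ≤ ‖(starRingEnd 𝕜) e - u‖ := by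
      rw [← map_sub]
      refine (abs_re_le_norm _).trans (le_of_eq ?_)
      rw [mul_comm u w, ← mul_sub, norm_mul, hw, one_mul]
    have h2 : ‖(starRingEnd 𝕜) e - u‖ ^ 2 = 2 - 2 * re (u * e) := by
      rw [← normSq_eq_def', normSq_sub, normSq_eq_def', normSq_eq_def', norm_conj, he, hu]
      have : re ((starRingEnd 𝕜) e * (starRingEnd 𝕜) u) = re (u * e) := by
        rw [← map_mul, conj_re, mul_comm]
      rw [this]; ring
    rw [← h2, ← sq_abs]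
    exact pow_le_pow_left₀ (abs_nonneg _) h1 2

end Pool.Agent.H549Z.R1
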